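import Pool.Agent.Y58.HT.Stm

/-!
# Project HT, block NL
-/

universe u

namespace Pool.Agent.Y396.HT

open Matrix H361P
open Pool.Agent.Y58.HT

lemma eigen {K : Type u} [Field K] (M : GL (Fin 2) K) (hdet : M.val.det = 1) (m : K)
    (hm : m ^ 2 - M.val.trace * m + 1 = 0) : ∃ x : Fin 2 → K, x ≠ 0 ∧
      M.val 0 0 * x 0 + M.val 0 1 * x 1 = m * x 0 ∧ M.val 1 0 * x 0 + M.val 1 1 * x 1 = m * x 1 := by
  have hd : (M.val - Matrix.scalar (Fin 2) m).det = 0 := by
    rw [Matrix.det_fin_two] at hdet ⊢
    rw [Matrix.trace_fin_two] at hm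
    simp
    linear_combination hm + hdet
  obtain ⟨x, hx0, hx⟩ := Matrix.exists_mulVec_eq_zero_iff.2 hd
  refine ⟨x, hx0, ?_, ?_⟩
  · have := congrFun hx 0
    simp [Matrix.mulVec, dotProduct, Fin.sum_univ_two] at this
    linear_combination this
  · have := congrFun hx 1
    simp [Matrix.mulVec, dotProduct, Fin.sum_univ_two] at this
    linear_combination this

theorem t_nl : S_NL.{u} := by
  intro K _ _ M hdet hL
  -- an eigenvalue
  obtain ⟨m, hm⟩ : ∃ m : K, m ^ 2 - M.val.trace * m + 1 = 0 := by
    have hdeg : (Polynomial.X ^ 2 - Polynomial.C (M.val.trace) * Polynomial.X +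
        Polynomial.C 1 : Polynomial K).degree = 2 := by
      compute_degree!
    obtain ⟨m, hm⟩ := IsAlgClosed.exists_root
      (Polynomial.X ^ 2 - Polynomial.C (M.val.trace) * Polynomial.X + Polynomial.C 1 :
        Polynomial K) (by rw [hdeg]; exact two_ne_zero)
    refine ⟨m, ?_⟩
    simpa [Polynomial.IsRoot.def] using hm
  have hm0 : m ≠ 0 := by
    rintro rfl
    simp at hm
  have hsum : m + m⁻¹ = M.val.trace := by
    field_simp
    linear_combination hm
  by_cases hfin : ∃ n : ℕ, 0 < n ∧ m ^ n = 1
  · obtain ⟨n, hn, hmn⟩ := hfin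
    exact ⟨m, n, hn, hmn, hsum⟩
  push Not at hfin
  exfalso
  apply hL
  have hmi : (m⁻¹) ^ 2 - M.val.trace * m⁻¹ + 1 = 0 := by
    rw [← hsum]
    field_simp
    ring
  have hne : m - m⁻¹ ≠ 0 := by
    intro h
    apply hfin 2 (by norm_num)
    have h1 : m = m⁻¹ := by linear_combination h
    calc m ^ 2 = m * m := by ring
      _ = m * m⁻¹ := by rw [← h1]
      _ = 1 := mul_inv_cancel₀ hm0
  obtain ⟨x, hx0, hx1, hx2⟩ := eigen M hdet m hm
  obtain ⟨y, hy0, hy1, hy2⟩ := eigen M hdet m⁻¹ hmi
  have hwd : wd x y ≠ 0 := by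
    intro hw
    unfold wd at hw
    apply hy0
    -- `y` is a multiple of `x`
    have key : ∃ c : K, y 0 = c * x 0 ∧ y 1 = c * x 1 := by
      by_cases h0 : x 0 = 0
      · have h1 : x 1 ≠ 0 := by
          intro h1
          apply hx0
          funext i
          fin_cases i
          · exact h0
          · exact h1
        refine ⟨y 1 / x 1, ?_, ?_⟩
        · rw [h0] at hw ⊢
          have : x 1 * y 0 = 0 := by linear_combination -hw
          rcases mul_eq_zero.1 this with h2 | h2
          · exact absurd h2 h1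
          · rw [h2]
            ring
        · field_simp
      · refine ⟨y 0 / x 0, ?_, ?_⟩
        · field_simp
        · field_simp
          linear_combination hw
    obtain ⟨c, hc0, hc1⟩ := key
    have e0 : (m - m⁻¹) * y 0 = 0 := by
      rw [hc0, hc1] at hy1
      rw [hc0]
      linear_combination c * (-1) * hx1 + hy1
    have e1 : (m - m⁻¹) * y 1 = 0 := by
      rw [hc0, hc1] at hy2
      rw [hc1]
      linear_combination c * (-1) * hx2 + hy2
    funext i
    fin_cases i
    · exact (mul_eq_zero.1 e0).resolve_left hne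
    · exact (mul_eq_zero.1 e1).resolve_left hne
  obtain ⟨h, hh1, hh2⟩ := exists_gl_two x y hwd
  have g00 : h.val 0 0 = x 0 := by
    have := congrFun hh1 0
    simpa using this
  have g10 : h.val 1 0 = x 1 := by
    have := congrFun hh1 1
    simpa using this
  have g01 : h.val 0 1 = y 0 := by
    have := congrFun hh2 0
    simpa using this
  have g11 : h.val 1 1 = y 1 := by
    have := congrFun hh2 1
    simpa using this
  set l : Kˣ := Units.mk0 (m⁻¹ ^ 2) (pow_ne_zero 2 (inv_ne_zero hm0)) with hl
  refine ⟨h, l, ?_, ?_⟩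
  · intro n hn hln
    apply hfin (2 * n) (by omega)
    have h1 : (l : K) = m⁻¹ ^ 2 := rfl
    rw [h1, ← pow_mul, inv_pow] at hln
    exact inv_eq_one.1 hln
  · apply mk_eq_of_smul (h * dm l true * h⁻¹) M m
    have hMh : M.val * h.val = m • (h.val * (dm l true).val) := by
      have hd : (dm l true).val = !![1, 0; 0, m⁻¹ ^ 2] := by
        simp [dm, hl, GeneralLinearGroup.mkOfDetNeZero]
      rw [hd]
      ext i j
      fin_cases i <;> fin_cases j <;>
        simp [Matrix.mul_apply, Fin.sum_univ_two, g00, g01, g10, g11]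
      · linear_combination hx1
      · rw [hy1]
        field_simp
      · linear_combination hx2
      · rw [hy2]
        field_simp
    have h3 : h.val * (h⁻¹).val = 1 := by
      rw [← Units.val_mul, mul_inv_cancel, Units.val_one]
    calc M.val = M.val * (h.val * (h⁻¹).val) := by rw [h3, mul_one]
      _ = (M.val * h.val) * (h⁻¹).val := by rw [Matrix.mul_assoc]
      _ = (m • (h.val * (dm l true).val)) * (h⁻¹).val := by rw [hMh]
      _ = m • ((h * dm l true * h⁻¹).val) := by
        rw [Units.val_mul, Units.val_mul, Matrix.smul_mul]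

end Pool.Agent.Y396.HT
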