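import Pool.Agent.Y58.HT.Stm

/-!
# Project HT, block RED
-/

universe u

namespace Pool.Agent.Y396.HT

open Pool.Agent.Y58.HT

/-- the ring of integers is a Jacobson ring -/
theorem jac_int : IsJacobsonRing ℤ := by
  rw [isJacobsonRing_iff_prime_eq]
  intro P hP
  by_cases h : P = ⊥
  · subst h
    rw [eq_bot_iff]
    intro x hx
    rw [Ideal.mem_jacobson_bot] at hx
    have h1 := hx x
    rw [Int.isUnit_iff] at h1
    rw [Ideal.mem_bot]
    rcases h1 with h1 | h1
    · have : x * x = 0 := by linarith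
      exact mul_self_eq_zero.1 this
    · exfalso
      nlinarith [mul_self_nonneg x]
  · have : P.IsMaximal := IsPrime.to_maximal_ideal h
    exact Ideal.jacobson_eq_self_of_isMaximal

lemma finite_field_of_finiteType (k : Type u) [Field k] [i : Algebra ℤ k]
    [Algebra.FiniteType ℤ k] : Finite k := by
  obtain rfl : i = Ring.toIntAlgebra k := Subsingleton.elim _ _
  have := jac_int
  have h1 : Module.Finite ℤ k := finite_of_finite_type_of_isJacobsonRing ℤ k
  have h2 : Algebra.IsIntegral ℤ k := inferInstance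
  obtain ⟨p, hp⟩ := CharP.exists k
  have hp0 : p ≠ 0 := by
    rintro rfl
    have : CharZero k := CharP.charP_to_charZero k
    have hinj : Function.Injective (algebraMap ℤ k) := by
      intro x y hxy
      simpa using hxy
    exact Int.not_isField (isField_of_isIntegral_of_isField hinj (Field.toIsField k))
  apply Module.finite_of_fg_torsion
  intro x
  refine ⟨⟨(p : ℤ), mem_nonZeroDivisors_of_ne_zero (by exact_mod_cast hp0)⟩, ?_⟩
  show (p : ℤ) • x = 0
  rw [zsmul_eq_mul]
  simp

theorem t_red : S_RED.{u} := by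
  intro R _ _ hft a ha
  have := jac_int
  have hj : IsJacobsonRing R := isJacobsonRing_of_finiteType (A := ℤ)
  have h1 : (⊥ : Ideal R).jacobson = ⊥ :=
    IsJacobsonRing.out inferInstance (Ideal.IsPrime.isRadical Ideal.isPrime_bot)
  have h2 : a ∉ (⊥ : Ideal R).jacobson := by
    rw [h1]
    simpa using ha
  rw [Ideal.jacobson, Ideal.mem_sInf] at h2
  push Not at h2
  obtain ⟨M, ⟨_, hM⟩, haM⟩ := h2
  let fk : Field (R ⧸ M) := Ideal.Quotient.field M
  have hf2 : Algebra.FiniteType ℤ (R ⧸ M) :=
    Algebra.FiniteType.of_surjective (Ideal.Quotient.mkₐ ℤ M) (Ideal.Quotient.mkₐ_surjective ℤ M)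
  have hfin : Finite (R ⧸ M) := @finite_field_of_finiteType (R ⧸ M) fk _ hf2
  refine ⟨R ⧸ M, fk, hfin, Ideal.Quotient.mk M, ?_⟩
  intro h
  exact haM (Ideal.Quotient.eq_zero_iff_mem.1 h)

end Pool.Agent.Y396.HT
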